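import Mathlib
import Pool.Agent.K4H74.ST.Main

/-!
# Characters which are induced from subgroups without involutions of a given class, up to
# characters of `2`-groups

`X` is a set of involutions of `Γ` (in the applications: the complex conjugations), `π : Γ → G` a
homomorphism such that `π` maps the centraliser of every element of `X` to elements of order at most
two, and `χ` a character of `G`.  Then `χ ∘ π` is a sum of a `ℤ`-combination of characters induced
from subgroups disjoint from `X` and of characters `ind U (χ ∘ ρ)`, where the image of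
`ρ : U → G` consists of elements of `2`-power order.
-/

set_option autoImplicit false
set_option linter.unusedSectionVars false

namespace Pool.Agent.K4H85.ST

open Pool.Agent.R389 Pool.Agent.K4H74.ST
open Pool.Agent.H302R2 Pool.Agent.H302R3 Pool.Agent.H541R3.ART Pool.Agent.W446.AS

section clif

variable {G : Type} [Group G] [Finite G]

/-- virtual characters of subgroups disjoint from `X` -/
lemma virt_free {X : Set G} (H : Subgroup G) (hH : ∀ x ∈ X, x ∉ H) {f : H → ℂ} (hf : Virt f) :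
    ind H f ∈ JJ X := by
  apply ind_JJ
  have h2 : MonG H ≤ JJ {x : H | (x : G) ∈ X} := by
    rw [MonG, AddSubgroup.closure_le]
    rintro _ ⟨V, ψ, _, rfl⟩
    exact free_JJ (X := {x : H | (x : G) ∈ X}) (fun (x : H) hx _ => hH x hx x.2) ψ
  exact h2 (virt_mem_mon hf)

/-- Clifford reduction to the stabiliser of a weight -/
theorem clifford_stab {V : Type} [AddCommGroup V] [Module ℂ V] [FiniteDimensional ℂ V]
    {ρ : Representation ℂ G V} (hρ : Irred ρ) (A : Subgroup G)
    [A.Normal] (hA : ∀ a b : A, a * b = b * a) :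
    ∃ (μ : A →* ℂˣ) (v₀ : V) (H : Subgroup G), v₀ ≠ 0 ∧
      (∀ a : A, ρ a v₀ = ((μ a : ℂˣ) : ℂ) • v₀) ∧
      (∀ g, g ∈ H ↔ ∀ a : A, μ (MulAut.conjNormal g a) = μ a) ∧
      ∃ ψ ∈ Irr H, ρ.character = ind H ψ := by
  classical
  have : Fintype A := Fintype.ofFinite A
  have hcA : (Nat.card A : ℂ) ≠ 0 := card_ne
  obtain ⟨μ, v₀, hv₀, hμ⟩ := exists_weight hA (ρ.comp A.subtype) hρ.1
  have hμ' : ∀ a : A, ρ a v₀ = ((μ a : ℂˣ) : ℂ) • v₀ := hμ
  let H : Subgroup G :=
    { carrier := {g | ∀ a : A, μ (MulAut.conjNormal g a) = μ a}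
      mul_mem' := by
        intro x y hx hy a
        rw [map_mul, MulAut.mul_apply, hx, hy]
      one_mem' := by
        intro a
        rw [map_one, MulAut.one_apply]
      inv_mem' := by
        intro x hx a
        have h1 := hx (MulAut.conjNormal x⁻¹ a)
        rw [← MulAut.mul_apply, ← map_mul, mul_inv_cancel, map_one, MulAut.one_apply] at h1
        exact h1.symm }
  have hH : ∀ g, g ∈ H ↔ ∀ a : A, μ (MulAut.conjNormal g a) = μ a := fun g => Iff.rfl
  let P : V →ₗ[ℂ] V := (Nat.card A : ℂ)⁻¹ • ∑ a : A, (((μ a)⁻¹ : ℂˣ) : ℂ) • ρ a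
  have hP : ∀ v, P v = (Nat.card A : ℂ)⁻¹ • ∑ a : A, (((μ a)⁻¹ : ℂˣ) : ℂ) • ρ a v := by
    intro v
    simp [P, LinearMap.sum_apply]
  have hPw : ∀ v, (∀ a : A, ρ a v = ((μ a : ℂˣ) : ℂ) • v) → P v = v := by
    intro v hv
    rw [hP]
    have h1 : ∀ a : A, (((μ a)⁻¹ : ℂˣ) : ℂ) • ρ a v = v := by
      intro a
      rw [hv, smul_smul, ← Units.val_mul, inv_mul_cancel, Units.val_one, one_smul]
    rw [Finset.sum_congr rfl (fun a _ => h1 a), Finset.sum_const, Finset.card_univ,
      ← Nat.card_eq_fintype_card, ← Nat.cast_smul_eq_nsmul ℂ, smul_smul, inv_mul_cancel₀ hcA,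
      one_smul]
  have hwP : ∀ (a : A) (v : V), ρ a (P v) = ((μ a : ℂˣ) : ℂ) • P v := by
    intro a v
    rw [hP, map_smul, map_sum, smul_comm ((μ a : ℂˣ) : ℂ) ((Nat.card A : ℂ)⁻¹)]
    congr 1
    rw [Finset.smul_sum, ← Equiv.sum_comp (Equiv.mulLeft a) (fun b : A => ((μ a : ℂˣ) : ℂ) •
      (((μ b)⁻¹ : ℂˣ) : ℂ) • ρ b v)]
    refine Finset.sum_congr rfl fun b _ => ?_
    rw [map_smul, Equiv.coe_mulLeft, map_mul, mul_inv_rev, smul_smul, ← Units.val_mul,
      mul_comm (μ b)⁻¹, ← mul_assoc, mul_inv_cancel, one_mul, Subgroup.coe_mul, map_mul,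
      Module.End.mul_apply]
  have hPc : ∀ (g : G), g ∈ H → ∀ v, P (ρ g v) = ρ g (P v) := by
    intro g hg v
    rw [hP, hP, map_smul, map_sum]
    congr 1
    rw [← Equiv.sum_comp (MulAut.conjNormal g).toEquiv (fun b : A =>
      (((μ b)⁻¹ : ℂˣ) : ℂ) • ρ b (ρ g v))]
    refine Finset.sum_congr rfl fun b _ => ?_
    change (((μ (MulAut.conjNormal g b))⁻¹ : ℂˣ) : ℂ) • ρ (MulAut.conjNormal g b : A) (ρ g v) = _
    rw [map_smul, (hH g).mp hg, ← Module.End.mul_apply,
      ← Module.End.mul_apply, ← map_mul, ← map_mul, MulAut.conjNormal_apply,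
      inv_mul_cancel_right]
  have hAH : ∀ a : A, (a : G) ∈ H := by
    intro a
    rw [hH]
    intro b
    have h1 : MulAut.conjNormal (a : G) b = b := by
      apply Subtype.ext
      rw [MulAut.conjNormal_apply]
      have := congrArg Subtype.val (hA a b)
      simp only [Subgroup.coe_mul] at this
      rw [this, mul_inv_cancel_right]
    rw [h1]
  have hPG : ∀ g, g ∉ H → ∀ v, P (ρ g (P v)) = 0 := by
    intro g hg v
    have h0 : ∃ a : A, μ (MulAut.conjNormal g⁻¹ a) ≠ μ a := by
      by_contra hcon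
      push Not at hcon
      apply hg
      have h1 : g⁻¹ ∈ H := hcon
      simpa using H.inv_mem h1
    obtain ⟨a, ha⟩ := h0
    have h1 : ρ a (ρ g (P v)) = ((μ (MulAut.conjNormal g⁻¹ a) : ℂˣ) : ℂ) • ρ g (P v) := by
      have h2 : (a : G) * g = g * (MulAut.conjNormal g⁻¹ a : A) := by
        rw [MulAut.conjNormal_apply]
        group
      rw [← Module.End.mul_apply, ← map_mul, h2, map_mul, Module.End.mul_apply, hwP, map_smul]
    have h2 := hPc a (hAH a) (ρ g (P v))
    rw [h1, map_smul, hwP] at h2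
    have h3 : (((μ (MulAut.conjNormal g⁻¹ a) : ℂˣ) : ℂ) - ((μ a : ℂˣ) : ℂ)) •
        P (ρ g (P v)) = 0 := by
      rw [sub_smul, h2, sub_self]
    rcases smul_eq_zero.mp h3 with h4 | h4
    · exact absurd (Units.ext (sub_eq_zero.mp h4)) ha
    · exact h4
  have hP0 : P v₀ = v₀ := hPw v₀ hμ'
  refine ⟨μ, v₀, H, hv₀, hμ', hH, imprim_char hρ H P (fun v => hPw _ fun a => hwP a v) ?_
    (fun h hh v => hPc h hh v) hPG⟩
  intro h
  rw [h] at hP0
  exact hv₀ hP0.symm

lemma tau_mem {S C : Subgroup G} (hCS : C ≤ S) {τ : G →* G} (hτ : ∀ u, (τ u)⁻¹ * u ∈ C) {s : G}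
    (hs : s ∈ S) : τ s ∈ S := by
  have h : τ s = s * ((τ s)⁻¹ * s)⁻¹ := by group
  rw [h]
  exact S.mul_mem hs (S.inv_mem (hCS (hτ s)))

/-- induction commutes with an endomorphism which is trivial modulo a subgroup of `S` -/
lemma ind_tau {S C : Subgroup G} (hCS : C ≤ S) {τ : G →* G} (hτ : ∀ u, (τ u)⁻¹ * u ∈ C)
    {f : S → ℂ} (hf : ∀ g x : S, f (x * g * x⁻¹) = f g) (u : G) :
    ind S f (τ u) = ind S (fun s => f ⟨τ s, tau_mem hCS hτ s.2⟩) u := by
  classical
  have : Fintype G := Fintype.ofFinite G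
  rw [ind_eq, ind_eq]
  congr 1
  refine Finset.sum_congr rfl fun x _ => ?_
  have hx : (τ x)⁻¹ * x ∈ S := hCS (hτ x)
  have e : x⁻¹ * τ u * x = ((τ x)⁻¹ * x)⁻¹ * τ (x⁻¹ * u * x) * ((τ x)⁻¹ * x) := by
    rw [map_mul, map_mul, map_inv]
    group
  by_cases h : x⁻¹ * u * x ∈ S
  · rw [ext_mem _ _ h]
    have h1 : x⁻¹ * τ u * x ∈ S := by
      rw [e]
      exact S.mul_mem (S.mul_mem (S.inv_mem hx) (tau_mem hCS hτ h)) hx
    rw [ext_mem _ _ h1, ← hf ⟨τ (x⁻¹ * u * x), tau_mem hCS hτ h⟩
      ⟨((τ x)⁻¹ * x)⁻¹, S.inv_mem hx⟩]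
    congr 1
    apply Subtype.ext
    change x⁻¹ * τ u * x = ((τ x)⁻¹ * x)⁻¹ * τ (x⁻¹ * u * x) * (((τ x)⁻¹ * x)⁻¹)⁻¹
    rw [inv_inv, ← e]
  · rw [ext_not _ _ h, ext_not]
    intro h1
    apply h
    have h2 : τ (x⁻¹ * u * x) ∈ S := by
      have h4 : τ (x⁻¹ * u * x) = ((τ x)⁻¹ * x) * (x⁻¹ * τ u * x) * ((τ x)⁻¹ * x)⁻¹ := by
        rw [e]; group
      rw [h4]
      exact S.mul_mem (S.mul_mem hx h1) (S.inv_mem hx)
    have h3 : x⁻¹ * u * x = τ (x⁻¹ * u * x) * ((τ (x⁻¹ * u * x))⁻¹ * (x⁻¹ * u * x)) := by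
      group
    rw [h3]
    exact S.mul_mem h2 (hCS (hτ _))

end clif

/-- the case of irreducible characters of `Y` -/
theorem two_irr {U Y : Type} [Group U] [Finite U] [Group Y] [Finite Y] {X : Set U}
    (hX : ∀ c ∈ X, c * c = 1) (C : Subgroup U) [C.Normal] (hCc : ∀ a b : C, a * b = b * a)
    (hCo : Odd (Nat.card C)) (τ : U →* U) (hτ : ∀ u, (τ u)⁻¹ * u ∈ C) {π : U →* Y}
    (hπ : Function.Surjective π) (hcom : ∀ c ∈ X, ∀ h : U, h * c = c * h → π h * π h = 1)
    {φ : Y → ℂ} (hφ : φ ∈ Irr Y) :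
    (fun u => φ (π u)) - (fun u => φ (π (τ u))) ∈ JJ X := by
  obtain ⟨n, r, hr, rfl⟩ := exists_rep hφ
  let ρ : Representation ℂ U (Fin n → ℂ) := r.comp π
  have hρ : Irred ρ := ⟨hr.1, fun W hW => hr.2 W (by
    intro y v hv
    obtain ⟨g, rfl⟩ := hπ y
    exact hW g v hv)⟩
  have hρ1 : ∀ u, ρ u = r (π u) := fun u => rfl
  have hch : ∀ u, r.character (π u) = ρ.character u := fun u => rfl
  obtain ⟨μ, v₀, S, hv₀, hμ, hS, ψ, hψ, hind⟩ := clifford_stab hρ C hCc
  by_cases hμ1 : ∀ a : C, μ a = 1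
  · let W : Submodule ℂ (Fin n → ℂ) :=
      { carrier := {v | ∀ a : C, ρ a v = v}
        add_mem' := by
          intro v w hv hw a
          rw [map_add, hv a, hw a]
        zero_mem' := by
          intro a
          rw [map_zero]
        smul_mem' := by
          intro k v hv a
          rw [map_smul, hv a] }
    have hWm : ∀ v, v ∈ W ↔ ∀ a : C, ρ a v = v := fun v => Iff.rfl
    have hW : W = ⊤ := by
      rcases hρ.2 W (by
        intro g v hv
        rw [hWm] at hv ⊢
        intro a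
        have h2 : (a : U) * g = g * (MulAut.conjNormal g⁻¹ a : C) := by
          rw [MulAut.conjNormal_apply]
          group
        rw [← Module.End.mul_apply, ← map_mul, h2, map_mul, Module.End.mul_apply, hv]) with h | h
      · exfalso
        apply hv₀
        have h1 : v₀ ∈ W := by
          rw [hWm]
          intro a
          rw [hμ, hμ1, Units.val_one, one_smul]
        rwa [h, Submodule.mem_bot] at h1
      · exact h
    have h0 : (fun u => r.character (π u)) - (fun u => r.character (π (τ u))) = 0 := by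
      funext u
      rw [Pi.sub_apply, hch, hch, Pi.zero_apply, sub_eq_zero]
      have h1 : ρ u = ρ (τ u) := by
        have h2 : u = τ u * ((τ u)⁻¹ * u) := by group
        conv_lhs => rw [h2]
        rw [map_mul]
        have h3 : ρ ((τ u)⁻¹ * u) = 1 := by
          refine LinearMap.ext fun v => ?_
          have h4 : v ∈ W := by rw [hW]; exact Submodule.mem_top
          exact (hWm v).mp h4 ⟨(τ u)⁻¹ * u, hτ u⟩
        rw [h3, mul_one]
      change LinearMap.trace ℂ _ (ρ u) = LinearMap.trace ℂ _ (ρ (τ u))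
      rw [h1]
    rw [h0]
    exact zero_mem _
  · have hSX : ∀ c ∈ X, c ∉ S := by
      intro c hc hcS
      apply hμ1
      intro a
      have hcc := hX c hc
      have hci : c⁻¹ = c := inv_eq_of_mul_eq_one_left hcc
      have h1 := (hS c).mp hcS a
      set a' : C := MulAut.conjNormal c a with ha'
      have h2 : (a' : U) = c * a * c⁻¹ := by rw [ha', MulAut.conjNormal_apply]
      have h3 : (a : U) * a' = a' * a := congrArg Subtype.val (hCc a a')
      have h4 : ((a : U) * a') * c = c * ((a : U) * a') := by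
        have h5 : c * ((a : U) * a') = a' * (c * a' * c⁻¹) * c := by rw [h2]; group
        have h6 : c * (a' : U) * c⁻¹ = a := by
          rw [h2]
          have : c * (c * (a : U) * c⁻¹) * c⁻¹ = (c * c) * a * (c * c)⁻¹ := by group
          rw [this, hcc]; group
        rw [h5, h6, h3]
      have h5 := hcom c hc _ h4
      have h6 : ρ ((a * a' : C) : U) (ρ ((a * a' : C) : U) v₀) = v₀ := by
        rw [hρ1, ← Module.End.mul_apply, ← map_mul]
        have h7 : π ((a * a' : C) : U) * π ((a * a' : C) : U) = 1 := h5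
        rw [h7, map_one, Module.End.one_apply]
      rw [hμ, map_smul, hμ, smul_smul, ← Units.val_mul, map_mul, h1] at h6
      have h7 : (((μ a * μ a * (μ a * μ a) : ℂˣ) : ℂ) - 1) • v₀ = 0 := by
        rw [sub_smul, h6, one_smul, sub_self]
      have h8 : μ a ^ 4 = 1 := by
        rcases smul_eq_zero.mp h7 with h | h
        · apply Units.ext
          have h9 : μ a ^ 4 = μ a * μ a * (μ a * μ a) := by
            rw [show (4 : ℕ) = 2 + 2 from rfl, pow_add, pow_two]
          rw [h9, Units.val_one]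
          exact sub_eq_zero.mp h
        · exact absurd h hv₀
      have h9 : μ a ^ Nat.card C = 1 := by
        rw [← map_pow, pow_card_eq_one', map_one]
      refine unit_one h9 h8 ?_
      have : Nat.Coprime (Nat.card C) 2 := Nat.coprime_two_right.mpr hCo
      exact Nat.Coprime.pow_right 2 this
    have hCS : C ≤ S := by
      intro a ha
      rw [hS]
      intro b
      have h1 : MulAut.conjNormal a b = b := by
        apply Subtype.ext
        rw [MulAut.conjNormal_apply]
        have := congrArg Subtype.val (hCc ⟨a, ha⟩ b)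
        simp only [Subgroup.coe_mul] at this
        rw [this, mul_inv_cancel_right]
      rw [h1]
    have hψv : Virt ψ := AddSubgroup.subset_closure hψ
    have h1 : (fun u => r.character (π u)) = ind S ψ := by
      funext u
      rw [hch, hind]
    let τS : S →* S :=
      { toFun := fun s => ⟨τ s, tau_mem hCS hτ s.2⟩
        map_one' := by apply Subtype.ext; simp
        map_mul' := by intro a b; apply Subtype.ext; simp }
    have h2 : (fun u => r.character (π (τ u))) = ind S (fun s => ψ (τS s)) := by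
      funext u
      rw [hch, hind, ind_tau hCS hτ (fun g x => hψv.conj g x)]
      rfl
    rw [h1, h2]
    exact sub_mem (virt_free S hSX hψv) (virt_free S hSX (hψv.comp τS))

/-- an involution of a hyperelementary group with odd prime is central -/
lemma central_of_odd {H : Type} [Group H] [Finite H] {p : ℕ} (hp : p.Prime) (hp2 : p ≠ 2) {c₀ : H}
    (hcn : ∀ u : H, u * c₀ * u⁻¹ ∈ Subgroup.zpowers c₀)
    (hpw : ∀ u : H, ∃ k : ℕ, u ^ (p ^ k) ∈ Subgroup.zpowers c₀) {c : H} (hc : c * c = 1)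
    (hc1 : c ≠ 1) (h : H) : h * c = c * h := by
  have hpo : Odd p := hp.odd_of_ne_two hp2
  have hcz : c ∈ Subgroup.zpowers c₀ := by
    obtain ⟨k, hk⟩ := hpw c
    have h1 : c ^ (p ^ k) = c := by
      obtain ⟨j, hj⟩ := (hpo.pow : Odd (p ^ k))
      rw [hj, pow_succ, pow_mul, pow_two, hc, one_pow, one_mul]
    rwa [h1] at hk
  have h2 : h * c * h⁻¹ ∈ Subgroup.zpowers c₀ := by
    obtain ⟨j, hj⟩ := Subgroup.mem_zpowers_iff.mp hcz
    rw [← hj, ← conj_zpow]
    exact zpow_mem (hcn h) j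
  have h3 : (h * c * h⁻¹) * (h * c * h⁻¹) = 1 := by
    have : (h * c * h⁻¹) * (h * c * h⁻¹) = h * (c * c) * h⁻¹ := by group
    rw [this, hc]; group
  have h4 : h * c * h⁻¹ ≠ 1 := by
    intro h5
    apply hc1
    have : c = h⁻¹ * (h * c * h⁻¹) * h := by group
    rw [this, h5]; group
  by_contra hcon
  have h5 : h * c * h⁻¹ ≠ c := by
    intro h6
    apply hcon
    calc h * c = h * c * h⁻¹ * h := by group
      _ = _ := by rw [h6]
  classical
  have hfin : Fintype (Subgroup.zpowers c₀) := Fintype.ofFinite _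
  let a1 : Subgroup.zpowers c₀ := 1
  let a2 : Subgroup.zpowers c₀ := ⟨c, hcz⟩
  let a3 : Subgroup.zpowers c₀ := ⟨h * c * h⁻¹, h2⟩
  have h6 := IsCyclic.card_pow_eq_one_le (α := Subgroup.zpowers c₀) (n := 2) two_pos
  have h7 : ({a1, a2, a3} : Finset (Subgroup.zpowers c₀))
      ⊆ Finset.univ.filter (fun a => a ^ 2 = 1) := by
    intro a ha
    rw [Finset.mem_filter]
    refine ⟨Finset.mem_univ _, ?_⟩
    simp only [Finset.mem_insert, Finset.mem_singleton] at ha
    rcases ha with rfl | rfl | rfl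
    · exact one_pow 2
    · apply Subtype.ext
      change c ^ 2 = 1
      rw [pow_two, hc]
    · apply Subtype.ext
      change (h * c * h⁻¹) ^ 2 = 1
      rw [pow_two, h3]
  have h8 : ({a1, a2, a3} : Finset (Subgroup.zpowers c₀)).card = 3 := by
    rw [Finset.card_eq_three]
    refine ⟨a1, a2, a3, ?_, ?_, ?_, rfl⟩
    · intro h9; exact hc1 (congrArg Subtype.val h9).symm
    · intro h9; exact h4 (congrArg Subtype.val h9).symm
    · intro h9; exact h5 (congrArg Subtype.val h9).symm
  have h9 := (Finset.card_le_card h7).trans h6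
  omega

/-- a retraction of a group with a normal subgroup of odd order and a quotient `2`-group -/
lemma exists_tau {U : Type} [Group U] [Finite U] (C : Subgroup U) [C.Normal]
    (hCo : Odd (Nat.card C)) (hQ : ∀ u : U, ∃ k : ℕ, u ^ (2 ^ k) ∈ C) :
    ∃ τ : U →* U, (∀ u, (τ u)⁻¹ * u ∈ C) ∧ ∀ u, ∃ k : ℕ, τ u ^ (2 ^ k) = 1 := by
  have : Fact (Nat.Prime 2) := ⟨Nat.prime_two⟩
  have hp : IsPGroup 2 (U ⧸ C) := by
    intro q
    induction q using QuotientGroup.induction_on with | _ u => ?_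
    obtain ⟨k, hk⟩ := hQ u
    refine ⟨k, ?_⟩
    rw [← QuotientGroup.mk_pow]
    exact (QuotientGroup.eq_one_iff _).mpr hk
  obtain ⟨n, hn⟩ := IsPGroup.iff_card.mp hp
  have hidx : C.index = 2 ^ n := by
    rw [Subgroup.index_eq_card]; exact hn
  have hcop : Nat.Coprime (Nat.card C) C.index := by
    rw [hidx]
    exact Nat.Coprime.pow_right n (Nat.coprime_two_right.mpr hCo)
  obtain ⟨H, hH⟩ := Subgroup.exists_left_complement'_of_coprime hcop
  let e := Subgroup.IsComplement'.QuotientMulEquiv hH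
  refine ⟨H.subtype.comp (e.toMonoidHom.comp (QuotientGroup.mk' C)), fun u => ?_, fun u => ?_⟩
  · rw [← QuotientGroup.eq]
    have h1 : e.symm (e (QuotientGroup.mk u : U ⧸ C)) = (QuotientGroup.mk u : U ⧸ C) :=
      e.symm_apply_apply _
    exact h1
  · obtain ⟨k, hk⟩ := hQ u
    refine ⟨k, ?_⟩
    rw [← map_pow]
    have h1 : (QuotientGroup.mk' C) (u ^ 2 ^ k) = 1 := (QuotientGroup.eq_one_iff _).mpr hk
    rw [MonoidHom.comp_apply, MonoidHom.comp_apply, h1, map_one, map_one]

/-- **The group theoretic decomposition.** -/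
theorem exact_group {Γ G : Type} [Group Γ] [Finite Γ] [Group G] [Finite G] (X : Set Γ)
    (hX : ∀ c ∈ X, c * c = 1 ∧ c ≠ 1) (π : Γ →* G)
    (hcom : ∀ c ∈ X, ∀ h : Γ, h * c = c * h → π h * π h = 1) (χ : G → ℂ) (hχ : IsChar χ) :
    (fun h => χ (π h)) ∈ JJ X ⊔ AddSubgroup.closure {f | ∃ (U : Subgroup Γ) (ρ : U →* G),
      (∀ u, ∃ k : ℕ, ρ u ^ (2 ^ k) = 1) ∧ f = ind U (fun u => χ (ρ u))} := by
  classical
  have hv : Virt χ := hχ.virt
  have hF : ∀ g x : Γ, (fun h => χ (π h)) (x * g * x⁻¹) = (fun h => χ (π h)) g :=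
    fun g x => (hv.comp π).conj g x
  refine (AddSubgroup.closure_le _).mpr ?_ (class_mem_sol hF)
  rintro _ ⟨U, hU, rfl⟩
  rw [SetLike.mem_coe]
  by_cases hx : ∃ x ∈ X, x ∈ U
  swap
  · push Not at hx
    exact AddSubgroup.mem_sup_left (virt_free U hx (hv.comp (π.comp U.subtype)))
  obtain ⟨c, hc, hcU⟩ := hx
  obtain ⟨p, hp, c₀, hcop, hcn, hpw⟩ := hU
  by_cases hp2 : p = 2
  · subst hp2
    let C : Subgroup U := Subgroup.zpowers c₀
    have hCn : C.Normal := ⟨fun x hx u => conj_zpowers hcn u hx⟩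
    have hCc : ∀ a b : C, a * b = b * a := zpowers_comm c₀
    have hCo : Odd (Nat.card C) := by
      rw [Nat.card_zpowers]
      exact Nat.coprime_two_right.mp hcop
    obtain ⟨τ, hτ, hτ2⟩ := exists_tau C hCo hpw
    let P : U →* G := π.comp U.subtype
    let f : U → ℂ := fun u => χ (P u)
    have h1 : f - (fun u => f (τ u)) ∈ JJ {x : U | (x : Γ) ∈ X} := by
      let D : (P.range → ℂ) →+ (U → ℂ) := AddMonoidHom.mk'
        (fun g => (fun u => g (P.rangeRestrict u)) - (fun u => g (P.rangeRestrict (τ u))))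
        (fun a b => by
          funext u
          simp only [Pi.sub_apply, Pi.add_apply]
          ring)
      have h2 : AddSubgroup.closure (Irr P.range) ≤ (JJ {x : U | (x : Γ) ∈ X}).comap D := by
        rw [AddSubgroup.closure_le]
        intro φ hφ
        rw [SetLike.mem_coe, AddSubgroup.mem_comap]
        refine two_irr (fun x hx => ?_) C hCc hCo τ hτ P.rangeRestrict_surjective ?_ hφ
        · exact Subtype.ext (hX x hx).1
        · intro x hx h hh
          apply Subtype.ext
          exact hcom x hx h (congrArg Subtype.val hh)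
      have h3 := h2 (hv.comp P.range.subtype)
      exact h3
    have h4 : ind U f = ind U (f - (fun u => f (τ u))) + ind U (fun u => f (τ u)) := by
      rw [← ind_add, sub_add_cancel]
    change ind U f ∈ _
    rw [h4]
    refine add_mem (AddSubgroup.mem_sup_left (ind_JJ U h1)) (AddSubgroup.mem_sup_right
      (AddSubgroup.subset_closure ⟨U, P.comp τ, fun u => ?_, rfl⟩))
    obtain ⟨k, hk⟩ := hτ2 u
    exact ⟨k, by rw [MonoidHom.comp_apply, ← map_pow, hk, map_one]⟩
  · refine AddSubgroup.mem_sup_right (AddSubgroup.subset_closure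
      ⟨U, π.comp U.subtype, fun u => ⟨1, ?_⟩, rfl⟩)
    have h1 : u * ⟨c, hcU⟩ = ⟨c, hcU⟩ * u := by
      refine central_of_odd hp hp2 hcn hpw ?_ ?_ u
      · exact Subtype.ext (hX c hc).1
      · intro h
        exact (hX c hc).2 (congrArg Subtype.val h)
    have h2 := hcom c hc u (congrArg Subtype.val h1)
    rw [pow_one, pow_two]
    exact h2

end Pool.Agent.K4H85.ST
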